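import Pool.Agent.Y31.U557.WR

set_option autoImplicit false

/-!
# The Wronskian inequality for pairwise coprime polynomials with sum zero, with the full drop of the degree
-/

namespace Pool.Agent.Q135.SNC

open Polynomial Pool.Agent.W515.SLP Pool.Agent.Y31.U557
open Pool.Agent.Y557.NF (rts)

variable {K : Type} [Field K]

/-- the degree of the Wronskian -/
lemma wmat_degree' {r : ℕ} (f : Fin r → K[X]) (hW : (wmat f).det ≠ 0) :
    (wmat f).det.natDegree + r * (r - 1) / 2 ≤ ∑ k, (f k).natDegree := by
  classical
  have h1 : (wmat f).det.coeff (wmat f).det.natDegree ≠ 0 := by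
    rw [coeff_natDegree]
    exact leadingCoeff_ne_zero.2 hW
  set N := (wmat f).det.natDegree with hN
  rw [Matrix.det_apply, finsetSum_coeff] at h1
  obtain ⟨σ, -, h2⟩ := Finset.exists_ne_zero_of_sum_ne_zero h1
  have h3 : (∏ i, (wmat f) (σ i) i).coeff N ≠ 0 := by
    rcases Int.units_eq_one_or (Equiv.Perm.sign σ) with h | h
    · rw [h, one_smul] at h2
      exact h2
    · rw [h] at h2
      intro h4
      apply h2
      rw [Units.neg_smul, one_smul, coeff_neg, h4, neg_zero]
  have h4 : N ≤ ∑ i, ((wmat f) (σ i) i).natDegree :=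
    (le_natDegree_of_ne_zero h3).trans (natDegree_prod_le _ _)
  have h5 : ∀ i, (wmat f) (σ i) i ≠ 0 := by
    intro i h
    apply h3
    have h4 : ∏ i, (wmat f) (σ i) i = 0 :=
      Finset.prod_eq_zero (f := fun i => (wmat f) (σ i) i) (Finset.mem_univ i) h
    exact (congrArg (fun p : K[X] => p.coeff N) h4).trans (coeff_zero N)
  have h6 : ∀ i, ((wmat f) (σ i) i).natDegree + (σ i : ℕ) ≤ (f i).natDegree := by
    intro i
    have h7 := h5 i
    simp only [wmat, Matrix.of_apply] at h7 ⊢
    have h8 := natDegree_iterate_derivative (f i) (σ i : ℕ)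
    have h9 : (σ i : ℕ) ≤ (f i).natDegree := by
      by_contra hlt
      exact h7 (iterate_derivative_eq_zero (not_le.1 hlt))
    omega
  have h7 : ∑ i, (σ i : ℕ) = r * (r - 1) / 2 := by
    rw [Equiv.sum_comp σ (fun i : Fin r => (i : ℕ)), Fin.sum_univ_eq_sum_range (fun i => i) r,
      Finset.sum_range_id]
  calc N + r * (r - 1) / 2 ≤ ∑ i, ((wmat f) (σ i) i).natDegree + ∑ i, (σ i : ℕ) := by
        rw [h7]; exact Nat.add_le_add_right h4 _
    _ = ∑ i, (((wmat f) (σ i) i).natDegree + (σ i : ℕ)) := by rw [Finset.sum_add_distrib]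
    _ ≤ _ := Finset.sum_le_sum fun i _ => h6 i

/-- **Pairwise coprime polynomials with sum zero.** -/
theorem wr_strong (K : Type) [Field K] [CharZero K] (n : ℕ) (P : Fin n → K[X]) (D : ℕ)
    (hP0 : ∀ i, P i ≠ 0) (hspl : ∀ i, (P i).Splits) (hcop : ∀ i j, i ≠ j → IsCoprime (P i) (P j))
    (hsum : ∑ i, P i = 0) (hD0 : ∃ i, (P i).natDegree = D) (hD : 1 ≤ D) :
    ∃ r : ℕ, 2 ≤ r ∧ r + 1 ≤ n ∧ D + r * (r - 1) / 2 ≤ (r - 1) * (rts P).card := by
  classical
  obtain ⟨i0, hi0⟩ := hD0
  obtain ⟨r, e, he, hne, hc, hmin⟩ := exists_min P i0 hsum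
  have hind := indep_of_min P i0 e hc hmin
  obtain ⟨c, hc⟩ := hc
  have hc0 := hmin c hc
  have hr2 : 2 ≤ r := by
    by_contra h
    have h1 : r = 0 ∨ r = 1 := by omega
    rcases h1 with h1 | h1
    · subst h1
      rw [Finset.univ_eq_empty, Finset.sum_empty] at hc
      exact hP0 i0 hc
    · subst h1
      rw [Fin.sum_univ_one] at hc
      have h2 : IsUnit (P (e 0)) :=
        (hcop i0 (e 0) (hne 0).symm).isUnit_of_dvd' (hc ▸ dvd_mul_left _ _) dvd_rfl
      have h3 : (P i0).natDegree = 0 := by
        rw [hc]
        have h4 := natDegree_eq_zero_of_isUnit h2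
        rw [natDegree_C_mul (hc0 0)]
        exact h4
      omega
  -- the index map
  set ι : Option (Fin r) → Fin n := fun o => o.elim i0 e with hι
  have hιinj : Function.Injective ι := by
    rintro (_ | a) (_ | b) hab
    · rfl
    · exact absurd hab.symm (hne b)
    · exact absurd hab (hne a)
    · exact congrArg some (he hab)
  have hrn : r + 1 ≤ n := by
    have := Fintype.card_le_of_injective ι hιinj
    rwa [Fintype.card_option, Fintype.card_fin, Fintype.card_fin] at this
  refine ⟨r, hr2, hrn, ?_⟩
  set f : Fin r → K[X] := fun k => P (e k) with hf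
  have hW : (wmat f).det ≠ 0 := wmat_det_ne_zero f hind
  have hdeg := wmat_degree' f hW
  set W := (wmat f).det with hWdef
  set R := rts P with hR
  have hmemR : ∀ i, ∀ a ∈ (P i).roots, a ∈ R := by
    intro i a ha
    rw [hR]
    unfold rts
    rw [Multiset.mem_toFinset, mem_roots (Finset.prod_ne_zero_iff.2 fun i _ => hP0 i), IsRoot.def,
      eval_prod, Finset.prod_eq_zero_iff]
    exact ⟨i, Finset.mem_univ _, (mem_roots (hP0 i)).1 ha⟩
  -- multiplicities
  have hmult : ∀ a : K, ∑ o, (P (ι o)).roots.count a ≤ (r - 1) + W.roots.count a := by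
    intro a
    by_cases hall : ∀ o, (P (ι o)).roots.count a = 0
    · rw [Finset.sum_eq_zero fun o _ => hall o]
      exact Nat.zero_le _
    · push Not at hall
      obtain ⟨o, ho⟩ := hall
      have hroot : (P (ι o)).eval a = 0 := by
        have h1 := Multiset.count_ne_zero.1 ho
        exact (mem_roots (hP0 _)).1 h1
      rw [Finset.sum_eq_single o]
      · have key : (X - C a) ^ ((P (ι o)).roots.count a - (r - 1)) ∣ W := by
          rw [count_roots]
          have hdv := pow_rootMultiplicity_dvd (P (ι o)) a
          cases o with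
          | none =>
            have h1 := pow_dvd_wmat_det (Function.update f ⟨0, by omega⟩ (∑ j, C (c j) * f j))
              (X - C a) (rootMultiplicity a (P (ι none))) {⟨0, by omega⟩} (by
                intro j hj
                rw [Finset.mem_singleton] at hj
                rw [hj, Function.update_self]
                have h2 : ∑ j, C (c j) * f j = P (ι none) := hc.symm
                rw [h2]
                exact hdv)
            rw [wmat_update, Finset.card_singleton, one_mul] at h1
            have hu : IsUnit (C (c ⟨0, by omega⟩)) :=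
              isUnit_C.2 (isUnit_iff_ne_zero.2 (hc0 ⟨0, by omega⟩))
            exact (hu.dvd_mul_left).1 h1
          | some k =>
            have h1 := pow_dvd_wmat_det f (X - C a) (rootMultiplicity a (P (ι (some k)))) {k} (by
              intro j hj
              rw [Finset.mem_singleton] at hj
              rw [hj]
              exact hdv)
            rw [Finset.card_singleton, one_mul] at h1
            exact h1
        have h2 := (le_rootMultiplicity_iff hW).2 key
        rw [← count_roots] at h2
        omega
      · intro o' _ ho'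
        rw [Multiset.count_eq_zero]
        intro h1
        have h2 : (P (ι o')).eval a = 0 := (mem_roots (hP0 _)).1 h1
        obtain ⟨u, v, huv⟩ := hcop (ι o') (ι o) (fun h => ho' (hιinj h))
        have h3 := congrArg (eval a) huv
        rw [eval_add, eval_mul, eval_mul, h2, hroot, mul_zero, mul_zero, add_zero, eval_one] at h3
        exact zero_ne_one h3
      · intro h
        exact absurd (Finset.mem_univ o) h
  have htot : D + ∑ k, (f k).natDegree = ∑ a ∈ R, ∑ o, (P (ι o)).roots.count a := by
    rw [Finset.sum_comm]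
    have h1 : ∀ o, ∑ a ∈ R, (P (ι o)).roots.count a = (P (ι o)).natDegree := by
      intro o
      rw [Multiset.sum_count_eq_card (hmemR (ι o)), (hspl (ι o)).natDegree_eq_card_roots]
    rw [Finset.sum_congr rfl fun o _ => h1 o, Fintype.sum_option]
    show D + _ = (P i0).natDegree + _
    rw [hi0]
    rfl
  have hWr : ∑ a ∈ R, W.roots.count a ≤ W.natDegree := by
    refine le_trans ?_ (card_roots' W)
    rw [← Multiset.toFinset_sum_count_eq]
    apply Finset.sum_le_sum_of_ne_zero
    intro a _ ha
    rw [Multiset.mem_toFinset]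
    exact Multiset.count_ne_zero.1 ha
  have hfin : D + ∑ k, (f k).natDegree ≤ R.card * (r - 1) + W.natDegree := by
    rw [htot]
    refine (Finset.sum_le_sum fun a _ => hmult a).trans ?_
    rw [Finset.sum_add_distrib, Finset.sum_const, smul_eq_mul]
    exact Nat.add_le_add_left hWr _
  rw [mul_comm (r - 1)]
  omega

end Pool.Agent.Q135.SNC
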