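import Pool.Agent.Q204.NT.Main
import Pool.Agent.Q135.SNC.WR

/-!
# Vanishing sums of pairwise coprime products of powers of numbers with small digits
-/

set_option autoImplicit false

namespace Pool.Agent.Q135.SNC

open Polynomial Finset Filter
open Pool.Agent.Q103.SD (PP eval_PP identity sizeZ smallZ JJ gg_mono size_PP prod_lower PP_ne_zero)
open Pool.Agent.Q204.NT (Dat used natDegree_PP)

/-- admissible tuples -/
def Adm {n : ℕ} (x : Fin n → ℤ) : Prop :=
  (∀ i, x i ≠ 0) ∧ (∀ i j, i ≠ j → IsCoprime (x i) (x j)) ∧ ∑ i, x i = 0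

theorem JJ_mono {D m n : ℕ} (h : m ≤ n) : JJ D m ≤ JJ D n := by
  unfold JJ
  have := gg_mono D h 0
  exact Nat.mul_le_mul (by omega) (by omega)

/-- **Relations come from identities, for every vanishing subsum.** -/
theorem ident (n K : ℕ) : ∃ δ : ℝ, 0 < δ ∧ δ ≤ 1 / 2 ∧ ∃ t₀ : ℕ, 64 ≤ t₀ ∧ ∀ t : ℕ, t₀ ≤ t →
    ∀ (m : ℕ) (F : Fin m → ℤ[X]) (α : Fin n → ℤ) (e : Fin n → Fin m → ℕ),
      Dat K ((t : ℝ) ^ δ) F α e →
      (∀ k, (PP F (α k) (e k)).eval (t : ℤ) ≠ 0) →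
      (∀ k l, k ≠ l → IsCoprime ((PP F (α k) (e k)).eval (t : ℤ)) ((PP F (α l) (e l)).eval (t : ℤ))) →
      ∀ S : Finset (Fin n), ∑ k ∈ S, (PP F (α k) (e k)).eval (t : ℤ) = 0 →
      ∑ k ∈ S, PP F (α k) (e k) = 0 := by
  obtain ⟨J, hJ⟩ : ∃ J, J = JJ K n := ⟨_, rfl⟩
  obtain ⟨δ, hδ⟩ : ∃ δ : ℝ, δ = 1 / (2 * (1 + 2 * J)) := ⟨_, rfl⟩
  have hδ0 : 0 < δ := by rw [hδ]; positivity
  have hδ1 : δ ≤ 1 / 2 := by
    rw [hδ, div_le_div_iff₀ (by positivity) (by norm_num)]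
    have : (0 : ℝ) ≤ J := by positivity
    linarith
  refine ⟨δ, hδ0, hδ1, max ((n + 1) ^ 2) 64, le_max_right _ _, ?_⟩
  intro t ht m F α e hD hne hcop
  have ht64 : 64 ≤ t := (le_max_right _ _).trans ht
  have htn : (n + 1) ^ 2 ≤ t := (le_max_left _ _).trans ht
  have htR : (64 : ℝ) ≤ t := by exact_mod_cast ht64
  have ht0 : (0 : ℝ) < t := by linarith
  obtain ⟨B, hB⟩ : ∃ B : ℝ, B = (t : ℝ) ^ δ := ⟨_, rfl⟩
  rw [← hB] at hD
  have hB1 : 1 ≤ B := by rw [hB]; exact Real.one_le_rpow (by linarith) hδ0.le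
  obtain ⟨r, hr⟩ : ∃ r : ℝ, r = (t : ℝ) ^ (1 / 2 : ℝ) := ⟨_, rfl⟩
  have hrr : r * r = t := by
    rw [hr, ← Real.rpow_add ht0]
    norm_num
  have hr0 : 0 ≤ r := by rw [hr]; positivity
  have hrn : (n : ℝ) + 1 ≤ r := by
    have h1 : ((n : ℝ) + 1) ^ 2 ≤ r ^ 2 := by
      rw [sq r, hrr]
      exact_mod_cast htn
    exact (pow_le_pow_iff_left₀ (by positivity) hr0 (by norm_num)).1 h1
  intro S
  induction S using Finset.strongInduction with
  | H S ih =>
  intro hS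
  rcases S.eq_empty_or_nonempty with rfl | hSne
  · simp
  by_cases hmin : ∃ T, T ⊂ S ∧ T.Nonempty ∧ ∑ k ∈ T, (PP F (α k) (e k)).eval (t : ℤ) = 0
  · obtain ⟨T, hTS, hT, hT0⟩ := hmin
    have h1 := ih T hTS hT0
    have h2 : ∑ k ∈ S \ T, (PP F (α k) (e k)).eval (t : ℤ) = 0 := by
      have := Finset.sum_sdiff (f := fun k => (PP F (α k) (e k)).eval (t : ℤ)) hTS.1
      rw [hT0, add_zero, hS] at this
      exact this
    have h3 := ih (S \ T) (Finset.sdiff_ssubset hTS.1 hT) h2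
    rw [← Finset.sum_sdiff hTS.1, h1, h3, add_zero]
  · push Not at hmin
    obtain ⟨a, ha⟩ := hSne
    obtain ⟨b, hb, hab⟩ : ∃ b ∈ S, b ≠ a := by
      by_contra hcon
      push Not at hcon
      have h1 : S = {a} := by
        ext x
        rw [Finset.mem_singleton]
        exact ⟨fun hx => hcon x hx, fun hx => hx ▸ ha⟩
      rw [h1, Finset.sum_singleton] at hS
      exact hne a hS
    obtain ⟨k0, hk0S, hk0⟩ : ∃ k0 ∈ S, ¬ (t : ℤ) ∣ (PP F (α k0) (e k0)).eval (t : ℤ) := by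
      by_contra hcon
      push Not at hcon
      have := (hcop a b hab.symm).isUnit_of_dvd' (hcon a ha) (hcon b hb)
      rw [Int.isUnit_iff] at this
      omega
    have hcard : Fintype.card S ≤ n := by
      rw [Fintype.card_coe]
      exact (Finset.card_le_univ S).trans (by simp)
    have key := identity (A := ℤ) (ι := S) (κ := Fin m) sizeZ (t := (t : ℤ))
      (by exact_mod_cast (show t ≠ 0 by omega)) (T := (t : ℝ)) (fun x h1 h2 => smallZ x h1 h2) hD.F0
      (D := K) hD.deg (H := B) hB1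
      (fun i => by
        have h1 := hD.unit i
        show |((F i).coeff 0 : ℝ)| ≤ 1
        exact_mod_cast h1)
      hD.coeff (α := fun k : S => α k) (fun k => hD.ne k) (fun k => hD.coef k) (fun k => e k)
      (N := ⌊B⌋₊) (Nat.le_floor (by simpa using hB1))
      (fun k => Nat.le_floor (hD.exps k)) ?_
      (by
        rw [← Finset.sum_coe_sort S (fun k => (PP F (α k) (e k)).eval (t : ℤ))] at hS
        exact hS) ⟨k0, hk0S⟩ hk0 ?_
    · rw [← Finset.sum_coe_sort S (fun k => PP F (α k) (e k))]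
      exact key
    · have hc' : (Fintype.card S : ℝ) ≤ n := by exact_mod_cast hcard
      have hBB : 1 ≤ B * B := by nlinarith
      have h0 : (⌊B⌋₊ * B) ^ (JJ K (Fintype.card S)) ≤ (B * B) ^ J := by
        calc (⌊B⌋₊ * B) ^ (JJ K (Fintype.card S)) ≤ (B * B) ^ (JJ K (Fintype.card S)) := by
              apply pow_le_pow_left₀ (by positivity)
              exact mul_le_mul_of_nonneg_right (Nat.floor_le (by linarith)) (by linarith)
          _ ≤ (B * B) ^ J := pow_le_pow_right₀ hBB (hJ ▸ JJ_mono hcard)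
      have h1 : (Fintype.card S : ℝ) * B * (⌊B⌋₊ * B) ^ (JJ K (Fintype.card S)) ≤
          n * B * (B * B) ^ J := by
        apply mul_le_mul _ h0 (by positivity) (by positivity)
        exact mul_le_mul_of_nonneg_right hc' (by linarith)
      have h2 : B * (B * B) ^ J = r := by
        have : B * (B * B) ^ J = B ^ (1 + 2 * J) := by
          rw [pow_add, pow_mul, pow_one, sq]
        rw [this, hB, hr, ← Real.rpow_mul_natCast ht0.le]
        congr 1
        rw [hδ]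
        push_cast
        field_simp
      have h3 : (n : ℝ) * B * (B * B) ^ J = n * r := by rw [mul_assoc, h2]
      rw [h3] at h1
      refine h1.trans_lt ?_
      nlinarith
    · intro S' hS' hS'u h0
      refine hmin (S'.map (Function.Embedding.subtype _)) ?_ (hS'.map) ?_
      · rw [Finset.ssubset_iff_subset_ne]
        refine ⟨fun x hx => ?_, fun heq => hS'u ?_⟩
        · obtain ⟨y, _, rfl⟩ := Finset.mem_map.1 hx
          exact y.2
        · apply Finset.eq_univ_of_card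
          have hc := congrArg Finset.card heq
          rw [Finset.card_map] at hc
          rw [Fintype.card_coe]
          exact hc
      · rw [Finset.sum_map]
        exact h0

theorem coprime_poly {K : ℕ} {H : ℝ} {m n : ℕ} {F : Fin m → ℤ[X]} {α : Fin n → ℤ}
    {e : Fin n → Fin m → ℕ} (hD : Dat K H F α e) (hH : 0 ≤ H) {t : ℕ} (hHt : H + 3 ≤ t) {k l : Fin n}
    (hcop : IsCoprime ((PP F (α k) (e k)).eval (t : ℤ)) ((PP F (α l) (e l)).eval (t : ℤ))) :
    IsCoprime ((PP F (α k) (e k)).map (Int.castRingHom ℂ))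
      ((PP F (α l) (e l)).map (Int.castRingHom ℂ)) := by
  have hα : ((α k : ℤ) : ℚ) ≠ 0 := by exact_mod_cast hD.ne k
  have hβ : ((α l : ℤ) : ℚ) ≠ 0 := by exact_mod_cast hD.ne l
  have hQ : IsCoprime ((PP F (α k) (e k)).map (Int.castRingHom ℚ))
      ((PP F (α l) (e l)).map (Int.castRingHom ℚ)) := by
    unfold PP
    rw [Polynomial.map_mul, Polynomial.map_mul, map_C, map_C, Polynomial.map_prod,
      Polynomial.map_prod]
    have hu1 : IsUnit (C ((Int.castRingHom ℚ) (α k))) :=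
      isUnit_C.mpr (isUnit_iff_ne_zero.mpr hα)
    have hu2 : IsUnit (C ((Int.castRingHom ℚ) (α l))) :=
      isUnit_C.mpr (isUnit_iff_ne_zero.mpr hβ)
    rw [isCoprime_mul_unit_left_left hu1, isCoprime_mul_unit_left_right hu2]
    apply IsCoprime.prod_left
    intro i _
    apply IsCoprime.prod_right
    intro j _
    rw [Polynomial.map_pow, Polynomial.map_pow]
    by_cases hi : e k i = 0
    · rw [hi, pow_zero]; exact isCoprime_one_left
    by_cases hj : e l j = 0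
    · rw [hj, pow_zero]; exact isCoprime_one_right
    apply IsCoprime.pow
    refine Pool.Agent.Q103.FC.coprime_of_eval (hD.F0 i) hH (hD.coeff i) hHt ?_
    rw [eval_PP, eval_PP] at hcop
    refine (hcop.of_isCoprime_of_dvd_left ?_).of_isCoprime_of_dvd_right ?_
    · exact Dvd.dvd.mul_left ((dvd_pow_self _ hi).trans
        (Finset.dvd_prod_of_mem (fun i => (F i).eval (t : ℤ) ^ e k i) (Finset.mem_univ i))) _
    · exact Dvd.dvd.mul_left ((dvd_pow_self _ hj).trans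
        (Finset.dvd_prod_of_mem (fun i => (F i).eval (t : ℤ) ^ e l i) (Finset.mem_univ j))) _
  have h1 := hQ.map (mapRingHom (algebraMap ℚ ℂ))
  simp only [coe_mapRingHom, Polynomial.map_map] at h1
  have h2 : (algebraMap ℚ ℂ).comp (Int.castRingHom ℚ) = Int.castRingHom ℂ := RingHom.ext_int _ _
  rw [h2] at h1
  exact h1

/-- **The degrees.** -/
theorem degrees {K : ℕ} {H : ℝ} {m n : ℕ} {F : Fin m → ℤ[X]} {α : Fin n → ℤ} {e : Fin n → Fin m → ℕ}
    (hD : Dat K H F α e) (hH : 0 ≤ H) {t : ℕ} (hHt : H + 3 ≤ t)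
    (hcop : ∀ k l, k ≠ l → IsCoprime ((PP F (α k) (e k)).eval (t : ℤ))
      ((PP F (α l) (e l)).eval (t : ℤ))) (hid : ∑ k, PP F (α k) (e k) = 0)
    (hU : (used e).Nonempty) (k : Fin n) :
    ∃ a : ℕ, 1 ≤ a ∧ a + 2 ≤ n ∧
      2 * ∑ i, e k i * (F i).natDegree + a * (a + 1) ≤ 2 * (a * ∑ i ∈ used e, (F i).natDegree) := by
  classical
  have hinj : Function.Injective (Int.castRingHom ℂ) := Int.cast_injective
  obtain ⟨P, hP⟩ : ∃ P : Fin n → ℂ[X], ∀ k, P k = (PP F (α k) (e k)).map (Int.castRingHom ℂ) :=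
    ⟨_, fun k => rfl⟩
  have hPP0 : ∀ k, PP F (α k) (e k) ≠ 0 := fun k => PP_ne_zero hD.F0 (hD.ne k) _
  have hP0 : ∀ k, P k ≠ 0 := fun k => by
    rw [hP]; exact (Polynomial.map_ne_zero_iff hinj).mpr (hPP0 k)
  have hdegP : ∀ k, (P k).natDegree = ∑ i, e k i * (F i).natDegree := fun k => by
    rw [hP, natDegree_map_eq_of_injective hinj, natDegree_PP hD.F0 (hD.ne k)]
  obtain ⟨i1, hi1⟩ := hU
  obtain ⟨k1, hk1⟩ := (Finset.mem_filter.1 hi1).2
  obtain ⟨kD, -, hkD⟩ := Finset.exists_max_image (Finset.univ : Finset (Fin n))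
    (fun k => (P k).natDegree) ⟨k1, Finset.mem_univ _⟩
  have hD1 : 1 ≤ (P kD).natDegree := by
    refine le_trans ?_ (hkD k1 (Finset.mem_univ _))
    rw [hdegP]
    refine le_trans ?_ (Finset.single_le_sum (f := fun i => e k1 i * (F i).natDegree)
      (fun _ _ => Nat.zero_le _) (Finset.mem_univ i1))
    exact Nat.mul_pos (Nat.pos_of_ne_zero hk1) (hD.pos i1)
  obtain ⟨r, hr2, hrn, key⟩ := wr_strong ℂ n P (P kD).natDegree hP0
    (fun i => IsAlgClosed.splits _)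
    (fun i j hij => by rw [hP, hP]; exact coprime_poly hD hH hHt (hcop i j hij))
    (by
      simp only [hP]
      rw [← Polynomial.map_sum, hid, Polynomial.map_zero]) ⟨kD, rfl⟩ hD1
  have hnz : (Pool.Agent.Y557.NF.rts P).card ≤ ∑ i ∈ used e, (F i).natDegree := by
    obtain ⟨G, hG⟩ : ∃ G : ℂ[X], G = ∏ i ∈ used e, (F i).map (Int.castRingHom ℂ) := ⟨_, rfl⟩
    have hG0 : G ≠ 0 := by
      rw [hG]
      exact Finset.prod_ne_zero_iff.mpr fun i _ => (Polynomial.map_ne_zero_iff hinj).mpr (hD.F0 i)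
    have hsub : Pool.Agent.Y557.NF.rts P ⊆ G.roots.toFinset := by
      intro a ha
      unfold Pool.Agent.Y557.NF.rts at ha
      rw [Multiset.mem_toFinset, mem_roots (Finset.prod_ne_zero_iff.mpr fun i _ => hP0 i), IsRoot.def,
        eval_prod] at ha
      obtain ⟨k, _, hk⟩ := Finset.prod_eq_zero_iff.1 ha
      rw [hP] at hk
      unfold PP at hk
      rw [Polynomial.map_mul, Polynomial.map_prod, eval_mul, map_C, eval_C, eval_prod] at hk
      rcases mul_eq_zero.1 hk with h3 | h3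
      · exact absurd ((map_eq_zero_iff _ hinj).1 h3) (hD.ne k)
      · obtain ⟨i, _, hi⟩ := Finset.prod_eq_zero_iff.1 h3
        rw [Polynomial.map_pow, eval_pow] at hi
        have hi0 : e k i ≠ 0 := by
          intro h0
          rw [h0, pow_zero] at hi
          exact one_ne_zero hi
        rw [Multiset.mem_toFinset, mem_roots hG0, IsRoot.def, hG, eval_prod]
        exact Finset.prod_eq_zero (Finset.mem_filter.2 ⟨Finset.mem_univ _, k, hi0⟩)
          (eq_zero_of_pow_eq_zero hi)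
    refine (Finset.card_le_card hsub).trans ((Multiset.toFinset_card_le _).trans
      ((card_roots' _).trans ?_))
    rw [hG]
    refine (natDegree_prod_le _ _).trans (Finset.sum_le_sum fun i _ => natDegree_map_le)
  obtain ⟨a, rfl⟩ : ∃ a, r = a + 1 := ⟨r - 1, by omega⟩
  refine ⟨a, by omega, by omega, ?_⟩
  have h1 : (P k).natDegree ≤ (P kD).natDegree := hkD k (Finset.mem_univ _)
  rw [hdegP k] at h1
  have h2 := Nat.mul_le_mul_left a hnz
  have h3 : 2 * ((a + 1) * (a + 1 - 1) / 2) = a * (a + 1) := by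
    rw [Nat.add_sub_cancel, mul_comm (a + 1) a]
    exact Nat.mul_div_cancel' (Nat.even_mul_succ_self a).two_dvd
  rw [Nat.add_sub_cancel] at key h3
  omega

/-- **The sizes.** -/
theorem sizes (A K : ℕ) (ε : ℝ) (hε : 0 < ε) : ∃ δ : ℝ, 0 < δ ∧ ∃ t₀ : ℕ, ∀ t : ℕ, t₀ ≤ t →
    ∀ (m n : ℕ) (F : Fin m → ℤ[X]) (α : Fin n → ℤ) (e : Fin n → Fin m → ℕ),
      Dat K ((t : ℝ) ^ δ) F α e → ∀ k, ∀ a b c : ℕ, a ≤ A → b ≤ A →
        b * ∑ i, e k i * (F i).natDegree + c ≤ a * ∑ i ∈ used e, (F i).natDegree →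
        |(((PP F (α k) (e k)).eval (t : ℤ) : ℤ) : ℝ)| ^ b * (t : ℝ) ^ ((c : ℝ) - ε) ≤
          |((∏ i ∈ used e, (F i).eval (t : ℤ) : ℤ) : ℝ)| ^ a := by
  obtain ⟨δ, hδ⟩ : ∃ δ : ℝ, δ = min (1 / 2) (ε / (2 * (A * K + A + 1))) := ⟨_, rfl⟩
  have hδ0 : 0 < δ := by rw [hδ]; exact lt_min (by norm_num) (by positivity)
  have hδ1 : δ ≤ 1 / 2 := by rw [hδ]; exact min_le_left _ _
  have hδ2 : δ * (A * K + A) ≤ ε / 2 := by
    have h1 : δ ≤ ε / (2 * (A * K + A + 1)) := by rw [hδ]; exact min_le_right _ _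
    calc δ * (A * K + A) ≤ δ * (A * K + A + 1) := by
          apply mul_le_mul_of_nonneg_left _ hδ0.le
          linarith
      _ ≤ ε / (2 * (A * K + A + 1)) * (A * K + A + 1) :=
          mul_le_mul_of_nonneg_right h1 (by positivity)
      _ = ε / 2 := by field_simp
  have hw : Tendsto (fun t : ℕ => (t : ℝ) ^ (ε / 2)) atTop atTop :=
    (tendsto_rpow_atTop (by positivity)).comp tendsto_natCast_atTop_atTop
  obtain ⟨t₀, ht₀⟩ := eventually_atTop.mp
    ((hw.eventually_ge_atTop ((4 : ℝ) ^ (A * K))).and (eventually_ge_atTop 64))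
  refine ⟨δ, hδ0, t₀, ?_⟩
  intro t ht m n F α e hD k a b c ha hb habc
  obtain ⟨h4, ht64⟩ := ht₀ t ht
  have htR : (64 : ℝ) ≤ t := by exact_mod_cast ht64
  have ht0 : (0 : ℝ) < t := by linarith
  obtain ⟨B, hB⟩ : ∃ B : ℝ, B = (t : ℝ) ^ δ := ⟨_, rfl⟩
  rw [← hB] at hD
  have hB1 : 1 ≤ B := by rw [hB]; exact Real.one_le_rpow (by linarith) hδ0.le
  obtain ⟨r, hr⟩ : ∃ r : ℝ, r = (t : ℝ) ^ (1 / 2 : ℝ) := ⟨_, rfl⟩
  have hrr : r * r = t := by
    rw [hr, ← Real.rpow_add ht0]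
    norm_num
  have hr8 : 8 ≤ r := by
    have hr0 : 0 ≤ r := by rw [hr]; positivity
    nlinarith
  have hBr : B ≤ r := by
    rw [hB, hr]
    exact Real.rpow_le_rpow_of_exponent_le (by linarith) hδ1
  have hBt : 4 * B ≤ t := by nlinarith
  obtain ⟨S, hS⟩ : ∃ S, S = ∑ i ∈ used e, (F i).natDegree := ⟨_, rfl⟩
  obtain ⟨d, hd⟩ : ∃ d, d = ∑ i, e k i * (F i).natDegree := ⟨_, rfl⟩
  rw [← hS, ← hd] at habc
  have hSK : S ≤ K := by
    rw [hS]
    exact (Finset.sum_le_univ_sum_of_nonneg fun _ => Nat.zero_le _).trans hD.deg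
  have hx := size_PP (t := t) (by omega) hB1 hBt hD.coeff hD.pos (hD.coef k) (e k) (d := d)
    (by omega)
  have hlow := prod_lower (t := t) (by omega) (by linarith) hBt hD.coeff hD.pos hD.deg (used e)
  rw [← hS] at hlow
  rw [eval_PP]
  obtain ⟨Q, hQ⟩ : ∃ Q, Q = |((∏ i ∈ used e, (F i).eval (t : ℤ) : ℤ) : ℝ)| := ⟨_, rfl⟩
  obtain ⟨x, hxd⟩ : ∃ x, x = |((α k * ∏ i, (F i).eval (t : ℤ) ^ e k i : ℤ) : ℝ)| := ⟨_, rfl⟩
  rw [← hQ] at hlow ⊢
  rw [← hxd] at hx ⊢
  have hQ0 : 0 ≤ Q := by rw [hQ]; exact abs_nonneg _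
  have hx0 : 0 ≤ x := by rw [hxd]; exact abs_nonneg _
  have haSK : a * S ≤ A * K := Nat.mul_le_mul ha hSK
  have hbd : b * d ≤ A * K := by omega
  obtain ⟨τ, hτ⟩ : ∃ τ : ℝ, τ = (t : ℝ) ^ (ε / 2) := ⟨_, rfl⟩
  have hτ0 : 0 < τ := by rw [hτ]; positivity
  have hBK : B ^ (A * K + A) ≤ τ := by
    rw [hB, hτ, ← Real.rpow_mul_natCast ht0.le]
    apply Real.rpow_le_rpow_of_exponent_le (by linarith)
    push_cast
    exact hδ2
  rw [← hτ] at h4
  -- the upper bound
  have h5 : x ^ b ≤ 2 ^ (A * K) * τ * (t : ℝ) ^ (b * d) := by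
    calc x ^ b ≤ (B * ((2 * B) ^ d * (t : ℝ) ^ d)) ^ b := pow_le_pow_left₀ hx0 hx _
      _ = 2 ^ (b * d) * B ^ (b * d + b) * (t : ℝ) ^ (b * d) := by
          rw [mul_pow, mul_pow, ← pow_mul, ← pow_mul, mul_comm d b, mul_pow, pow_add]
          ring
      _ ≤ 2 ^ (A * K) * B ^ (A * K + A) * (t : ℝ) ^ (b * d) := by
          apply mul_le_mul_of_nonneg_right _ (by positivity)
          apply mul_le_mul (pow_le_pow_right₀ (by norm_num) hbd)
            (pow_le_pow_right₀ hB1 (by omega)) (by positivity) (by positivity)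
      _ ≤ _ := by
          apply mul_le_mul_of_nonneg_right _ (by positivity)
          exact mul_le_mul_of_nonneg_left hBK (by positivity)
  obtain ⟨ρ, hρ⟩ : ∃ ρ : ℝ, ρ = (t : ℝ) ^ ((c : ℝ) - ε) := ⟨_, rfl⟩
  rw [← hρ]
  have hρ0 : 0 < ρ := by rw [hρ]; positivity
  have h6 : ρ * (τ * τ) = (t : ℝ) ^ c := by
    rw [hρ, hτ, ← Real.rpow_add ht0, ← Real.rpow_add ht0, ← Real.rpow_natCast]
    congr 1
    ring
  have h7 : ((t : ℝ) ^ S) ^ a ≤ (2 ^ K * Q) ^ a := pow_le_pow_left₀ (by positivity) hlow _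
  have h8 : (t : ℝ) ^ (b * d) * (t : ℝ) ^ c ≤ ((t : ℝ) ^ S) ^ a := by
    rw [← pow_mul, ← pow_add]
    apply pow_le_pow_right₀ (by linarith)
    rw [mul_comm S a]
    exact habc
  have h9 : (2 ^ K * Q) ^ a ≤ 2 ^ (A * K) * Q ^ a := by
    rw [mul_pow, ← pow_mul]
    apply mul_le_mul_of_nonneg_right _ (by positivity)
    apply pow_le_pow_right₀ (by norm_num)
    rw [mul_comm]
    exact Nat.mul_le_mul_right _ ha
  obtain ⟨w, hw2⟩ : ∃ w : ℝ, w = 2 ^ (A * K) := ⟨_, rfl⟩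
  have hw0 : 0 < w := by rw [hw2]; positivity
  have h44 : (4 : ℝ) ^ (A * K) = w * w := by
    rw [hw2, ← mul_pow]; norm_num
  rw [h44] at h4
  rw [← hw2] at h5 h9
  have h10 : x ^ b * ρ * (w * w) ≤ (w * w) * Q ^ a := by
    calc x ^ b * ρ * (w * w) ≤ (w * τ * (t : ℝ) ^ (b * d)) * ρ * τ := by
          apply mul_le_mul _ h4 (by positivity) (by positivity)
          exact mul_le_mul_of_nonneg_right h5 hρ0.le
      _ = w * ((t : ℝ) ^ (b * d) * (ρ * (τ * τ))) := by ring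
      _ = w * ((t : ℝ) ^ (b * d) * (t : ℝ) ^ c) := by rw [h6]
      _ ≤ w * (w * Q ^ a) := mul_le_mul_of_nonneg_left (h8.trans (h7.trans h9)) hw0.le
      _ = (w * w) * Q ^ a := by ring
  have h11 : (w * w) * (x ^ b * ρ) ≤ (w * w) * Q ^ a := by linarith
  exact le_of_mul_le_mul_left h11 (by positivity)

/-- arithmetic of the degree bound -/
theorem arith {n a d S : ℕ} (ha : 1 ≤ a) (han : a + 2 ≤ n) (h : 2 * d + a * (a + 1) ≤ 2 * (a * S)) :
    d + (n - 2) ≤ (n - 2) * S ∧ 2 * d + S ≤ S * S ∧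
      (n ≤ S + 2 → 2 * d + (n - 1) * (n - 2) ≤ 2 * (n - 2) * S) := by
  obtain ⟨N, rfl⟩ : ∃ N, n = N + 2 := ⟨n - 2, by omega⟩
  rw [show N + 2 - 2 = N by omega, show N + 2 - 1 = N + 1 by omega]
  have hS : 1 ≤ S := by
    rcases Nat.eq_zero_or_pos S with h0 | h0
    · subst h0
      have : 1 ≤ a * (a + 1) := Nat.mul_pos ha (by omega)
      omega
    · exact h0
  have haN : a ≤ N := by omega
  zify at *
  refine ⟨?_, ?_, ?_⟩
  · nlinarith [mul_nonneg (sub_nonneg.2 haN) (sub_nonneg.2 hS), mul_nonneg (sub_nonneg.2 ha)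
      (show (0 : ℤ) ≤ a by linarith)]
  · have h1 : (0 : ℤ) ≤ (S - a) * (S - a - 1) := by
      rcases le_or_gt (S : ℤ) a with h2 | h2
      · exact mul_nonneg_of_nonpos_of_nonpos (by linarith) (by linarith)
      · exact mul_nonneg (by linarith) (by linarith [Int.add_one_le_iff.2 h2])
    nlinarith
  · intro hN
    have h1 : (0 : ℤ) ≤ (N - a) * (2 * S - N - a - 1) := by
      rcases haN.lt_or_eq with h2 | h2
      · exact mul_nonneg (by linarith) (by linarith [Int.add_one_le_iff.2 h2])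
      · rw [h2]; simp
    nlinarith

end Pool.Agent.Q135.SNC
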